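import Pool.Agent.X214.SO.Core

/-! Bergman groups: bounds from chains. -/

namespace Pool.Agent.X214.SO

open Filter Topology Set
open scoped Pointwise

/-- Bergman groups, as in the problem. -/
def Bergman (G : Type*) [Group G] : Prop :=
  ¬ ∃ X : ℕ → Set G, StrictMono X ∧ (⋃ n, X n) = univ ∧ ∀ n, X n = (X n)⁻¹ ∧ X n * X n ⊆ X (n + 1)

theorem Bergman.eq_univ {G : Type*} [Group G] (hG : Bergman G) (X : ℕ → Set G) (hm : Monotone X)
    (hU : ∀ x, ∃ n, x ∈ X n) (hinv : ∀ n x, x ∈ X n → x⁻¹ ∈ X n)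
    (hmul : ∀ n x y, x ∈ X n → y ∈ X n → x * y ∈ X (n + 1)) : ∃ n, ∀ x, x ∈ X n := by
  by_contra hcon
  push Not at hcon
  have h1 : ∀ n, ∃ m, n < m ∧ X n < X m := by
    intro n
    obtain ⟨x, hx⟩ := hcon n
    obtain ⟨m, hxm⟩ := hU x
    have hnm : n < m := by
      by_contra hle
      exact hx (hm (not_lt.1 hle) hxm)
    exact ⟨m, hnm, lt_of_le_of_ne (hm hnm.le) fun e => hx (e ▸ hxm)⟩
  choose N hN hN' using h1
  refine hG ⟨fun k => X (N^[k] 0), ?_, ?_, ?_⟩
  · refine strictMono_nat_of_lt_succ fun k => ?_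
    rw [Function.iterate_succ_apply']
    exact hN' _
  · have hs : StrictMono fun k => N^[k] 0 := by
      refine strictMono_nat_of_lt_succ fun k => ?_
      rw [Function.iterate_succ_apply']
      exact hN _
    refine eq_univ_of_forall fun x => ?_
    obtain ⟨n, hn⟩ := hU x
    exact mem_iUnion.2 ⟨n, hm (hs.le_apply (x := n)) hn⟩
  · intro k
    refine ⟨?_, ?_⟩
    · ext x
      rw [Set.mem_inv]
      exact ⟨fun h => hinv _ _ h, fun h => by simpa using hinv _ _ h⟩
    · rintro _ ⟨a, ha, b, hb, rfl⟩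
      change a * b ∈ X (N^[k + 1] 0)
      rw [Function.iterate_succ_apply']
      exact hm (hN (N^[k] 0)) (hmul _ _ _ ha hb)

variable {G : Type*} [Group G] {f : G → ℝ}

theorem bergman_bdd (hG : Bergman G) (hf : SlowOsc f) : ∃ M : ℝ, ∀ x, |f x| ≤ M := by
  obtain ⟨n, hn⟩ := hG.eq_univ (fun n => {u | ∀ y, |f (u * y) - f y| ≤ 2 ^ n}) (by
      intro m n hmn u hu y
      exact (hu y).trans (pow_le_pow_right₀ (by norm_num) hmn)) (by
      intro u
      have hfin := hf.fin u one_pos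
      obtain ⟨C, hC⟩ := (hfin.image fun y => |f (u * y) - f y|).bddAbove
      obtain ⟨n, hn⟩ := pow_unbounded_of_one_lt (max C 1) (by norm_num : (1 : ℝ) < 2)
      refine ⟨n, fun y => ?_⟩
      by_cases hy : 1 ≤ |f (u * y) - f y|
      · exact ((hC ⟨y, hy, rfl⟩).trans (le_max_left _ _)).trans hn.le
      · exact ((not_le.1 hy).le.trans (le_max_right _ _)).trans hn.le) (by
      intro n u hu y
      have := hu (u⁻¹ * y)
      rw [mul_inv_cancel_left, abs_sub_comm] at this
      exact this) (by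
      intro n u v hu hv y
      have h1 := hu (v * y)
      have h2 := hv y
      have h3 := abs_sub_le (f (u * (v * y))) (f (v * y)) (f y)
      rw [mul_assoc, pow_succ]
      linarith)
  refine ⟨|f 1| + 2 ^ n, fun x => ?_⟩
  have h1 := hn x 1
  rw [mul_one] at h1
  have h2 := abs_sub_abs_le_abs_sub (f x) (f 1)
  linarith

/-- The rate of `f` at `u`: the number of `y` with `|f (u y) - f y| ≥ 2^{-k}`. -/
noncomputable def rate (f : G → ℝ) (u : G) (k : ℕ) : ℕ :=
  {y | (1 / 2 : ℝ) ^ k ≤ |f (u * y) - f y|}.ncard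

theorem rate_fin (hf : SlowOsc f) (u : G) (k : ℕ) :
    {y | (1 / 2 : ℝ) ^ k ≤ |f (u * y) - f y|}.Finite := hf.fin u (by positivity)

theorem rate_mono (hf : SlowOsc f) (u : G) : Monotone (rate f u) := by
  intro k l hkl
  refine ncard_le_ncard (fun y hy => ?_) (rate_fin hf u l)
  exact (pow_le_pow_of_le_one (by norm_num : (0 : ℝ) ≤ 1 / 2) (by norm_num) hkl).trans hy

theorem rate_inv (hf : SlowOsc f) (u : G) (k : ℕ) : rate f u⁻¹ k = rate f u k := by
  have : {y | (1 / 2 : ℝ) ^ k ≤ |f (u⁻¹ * y) - f y|}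
      = (fun y => u * y) '' {y | (1 / 2 : ℝ) ^ k ≤ |f (u * y) - f y|} := by
    ext y
    constructor
    · intro hy
      refine ⟨u⁻¹ * y, ?_, by simp⟩
      simp only [mem_setOf_eq, mul_inv_cancel_left]
      rw [abs_sub_comm]; exact hy
    · rintro ⟨z, hz, rfl⟩
      simp only [mem_setOf_eq, inv_mul_cancel_left]
      rw [abs_sub_comm]; exact hz
  unfold rate
  rw [this, ncard_image_of_injective _ (mul_right_injective u)]

theorem rate_mul (hf : SlowOsc f) (u v : G) (k : ℕ) :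
    rate f (u * v) k ≤ rate f u (k + 1) + rate f v (k + 1) := by
  have hsub : {y | (1 / 2 : ℝ) ^ k ≤ |f (u * v * y) - f y|} ⊆
      ((fun y => v * y) ⁻¹' {y | (1 / 2 : ℝ) ^ (k + 1) ≤ |f (u * y) - f y|}) ∪
        {y | (1 / 2 : ℝ) ^ (k + 1) ≤ |f (v * y) - f y|} := by
    intro y hy
    by_contra hc
    rw [mem_union, not_or] at hc
    have h1 : |f (u * (v * y)) - f (v * y)| < (1 / 2 : ℝ) ^ (k + 1) :=
      not_le.1 fun hh => hc.1 hh
    have h2 : |f (v * y) - f y| < (1 / 2 : ℝ) ^ (k + 1) := not_le.1 fun hh => hc.2 hh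
    have h3 := abs_sub_le (f (u * (v * y))) (f (v * y)) (f y)
    have h4 : (1 / 2 : ℝ) ^ k ≤ |f (u * v * y) - f y| := hy
    rw [mul_assoc] at h4
    rw [pow_succ] at h1 h2
    linarith
  have hpre : ((fun y => v * y) ⁻¹' {y | (1 / 2 : ℝ) ^ (k + 1) ≤ |f (u * y) - f y|}).Finite :=
    (rate_fin hf u (k + 1)).preimage (mul_right_injective v).injOn
  refine (ncard_le_ncard hsub (hpre.union (rate_fin hf v (k + 1)))).trans
    ((ncard_union_le _ _).trans ?_)
  refine Nat.add_le_add_right ?_ _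
  unfold rate
  rw [← ncard_image_of_injective _ (mul_right_injective v)]
  refine ncard_le_ncard ?_ (rate_fin hf u (k + 1))
  rintro _ ⟨y, hy, rfl⟩
  exact hy

/-- dominated rates are uniformly bounded on a Bergman group -/
theorem bergman_rate (hG : Bergman G) (hf : SlowOsc f)
    (hd : ∃ g : ℕ → ℕ, ∀ u : G, ∀ᶠ k in atTop, rate f u k ≤ g k) :
    ∃ h : ℕ → ℕ, ∀ u k, rate f u k ≤ h k := by
  obtain ⟨g₀, hg₀⟩ := hd
  set g : ℕ → ℕ := fun k => (∑ i ∈ Finset.range (k + 1), g₀ i) + 1 with hg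
  have hgm : Monotone g := by
    intro k l hkl
    refine Nat.add_le_add_right ?_ 1
    exact Finset.sum_le_sum_of_subset (Finset.range_mono (by omega))
  have hg1 : ∀ k, 1 ≤ g k := fun k => Nat.le_add_left _ _
  have hgg : ∀ k, g₀ k ≤ g k := fun k =>
    (Finset.single_le_sum (f := g₀) (fun _ _ => Nat.zero_le _)
      (Finset.mem_range.2 (Nat.lt_succ_self k))).trans (Nat.le_succ _)
  obtain ⟨n, hn⟩ := hG.eq_univ (fun n => {u | ∀ k, rate f u k ≤ 2 ^ n * g (k + n)}) (by
      intro m n hmn u hu k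
      exact (hu k).trans (Nat.mul_le_mul (Nat.pow_le_pow_right (by norm_num) hmn)
        (hgm (by omega)))) (by
      intro u
      obtain ⟨K, hK⟩ := eventually_atTop.1 (hg₀ u)
      obtain ⟨n, hn⟩ : ∃ n, rate f u K < 2 ^ n := ⟨_, Nat.lt_two_pow_self⟩
      refine ⟨n, fun k => ?_⟩
      rcases le_total K k with hk | hk
      · calc rate f u k ≤ g k := (hK k hk).trans (hgg k)
          _ ≤ g (k + n) := hgm (by omega)
          _ ≤ 2 ^ n * g (k + n) := Nat.le_mul_of_pos_left _ (by positivity)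
      · calc rate f u k ≤ rate f u K := rate_mono hf u hk
          _ ≤ 2 ^ n := hn.le
          _ ≤ 2 ^ n * g (k + n) := Nat.le_mul_of_pos_right _ (hg1 _)) (by
      intro n u hu k
      rw [rate_inv hf]
      exact hu k) (by
      intro n u v hu hv k
      have h1 := hu (k + 1)
      have h2 := hv (k + 1)
      have h3 := rate_mul hf u v k
      have e : k + 1 + n = k + (n + 1) := by omega
      rw [e] at h1 h2
      rw [pow_succ]
      nlinarith)
  exact ⟨fun k => 2 ^ n * g (k + n), fun u k => hn u k⟩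

end Pool.Agent.X214.SO
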