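import Pool.Agent.X214.SO.Energy

/-! Bergman groups: so-functions with dominated rates are constant at infinity. -/

namespace Pool.Agent.X214.SO

open Filter Topology Set
open scoped ENNReal Pointwise

variable {G : Type*} [Group G] {f : G → ℝ}

theorem constAtInf_of_uniform (hf : SlowOsc f) {M : ℝ} (hM : ∀ x, |f x| ≤ M)
    {h : ℕ → ℕ} (hh : ∀ u k, rate f u k ≤ h k) : ConstAtInf f := by
  classical
  set c : ℕ → ℝ≥0∞ := fun k => (1 / 2 : ℝ≥0∞) ^ k / (h k + 1) with hc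
  have hhtop : ∀ k, ((h k : ℝ≥0∞) + 1) ≠ ∞ := fun k => by finiteness
  have hh0 : ∀ k, ((h k : ℝ≥0∞) + 1) ≠ 0 := fun k => by simp
  have hctop : ∀ k, c k ≠ ∞ := fun k => by
    rw [hc]; exact ENNReal.div_ne_top (by finiteness) (hh0 k)
  have hc0 : ∀ k, c k ≠ 0 := fun k => by
    rw [hc]
    exact (ENNReal.div_pos (pow_ne_zero _ (by simp)) (hhtop k)).ne'
  -- the energy
  set E : (G → ℝ) → ℝ≥0∞ := fun g => ⨆ u, en c f u g with hE
  have hElsc : LowerSemicontinuous E := lowerSemicontinuous_iSup fun u => en_lsc hctop f u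
  set K : Set (G → ℝ) := Set.pi univ fun _ => Icc (-M) M with hK
  have hKc : IsCompact K := isCompact_univ_pi fun _ => isCompact_Icc
  have hfK : f ∈ K := fun x _ => abs_le.1 (hM x)
  obtain ⟨g, hgK, hgmin⟩ := LowerSemicontinuousOn.exists_isMinOn ⟨f, hfK⟩ hKc
    (hElsc.lowerSemicontinuousOn K)
  have hEf : E f ≠ ∞ := by
    have h1 : E f ≤ ∑' k : ℕ, c k * (h k * ENNReal.ofReal ((2 * M) ^ 2)) :=
      iSup_le fun u => en_bound hf hM hh u
    have h2 : ∑' k : ℕ, c k * (h k * ENNReal.ofReal ((2 * M) ^ 2)) ≤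
        ∑' k : ℕ, (1 / 2 : ℝ≥0∞) ^ k * ENNReal.ofReal ((2 * M) ^ 2) := by
      refine ENNReal.tsum_le_tsum fun k => ?_
      rw [← mul_assoc]
      gcongr
      calc c k * h k ≤ c k * (h k + 1) := by gcongr; exact le_self_add
        _ = (1 / 2 : ℝ≥0∞) ^ k := ENNReal.div_mul_cancel (hh0 k) (hhtop k)
    have h3 : ∑' k : ℕ, (1 / 2 : ℝ≥0∞) ^ k * ENNReal.ofReal ((2 * M) ^ 2) ≠ ∞ := by
      rw [ENNReal.tsum_mul_right, ENNReal.tsum_geometric]
      refine ENNReal.mul_ne_top ?_ ENNReal.ofReal_ne_top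
      rw [one_div, ENNReal.one_sub_inv_two, inv_inv]
      finiteness
    exact ne_top_of_le_ne_top h3 (h1.trans h2)
  have hEg : E g ≠ ∞ := ne_top_of_le_ne_top hEf (hgmin hfK)
  -- invariance of the minimiser
  have hinv : ∀ v y, g (v * y) = g y := by
    intro v y₀
    by_contra hne
    have hne' : 0 < |(g y₀ - g (v * y₀)) / 2| := by
      refine abs_pos.2 (div_ne_zero (sub_ne_zero.2 fun e => hne e.symm) (by norm_num))
    obtain ⟨k₀, hk₀⟩ := exists_pow_lt_of_lt_one (half_pos hne')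
      (by norm_num : (1 / 2 : ℝ) < 1)
    set D : ℝ≥0∞ := c k₀ * ENNReal.ofReal (((g y₀ - g (v * y₀)) / 2) ^ 2 / 4) with hD
    have hD0 : D ≠ 0 := by
      refine mul_ne_zero (hc0 _) ?_
      rw [Ne, ENNReal.ofReal_eq_zero, not_le]
      have : 0 < ((g y₀ - g (v * y₀)) / 2) ^ 2 := by
        rw [← sq_abs]; positivity
      positivity
    have hDtop : D ≠ ∞ := ENNReal.mul_ne_top (hctop _) ENNReal.ofReal_ne_top
    set g₁ : G → ℝ := fun y => (g y + g (v * y)) / 2 with hg₁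
    have hg₁K : g₁ ∈ K := by
      intro y _
      have h1 := hgK y (mem_univ _)
      have h2 := hgK (v * y) (mem_univ _)
      rw [mem_Icc] at h1 h2
      rw [hg₁, mem_Icc]
      constructor <;> dsimp only <;> linarith [h1.1, h1.2, h2.1, h2.2]
    have hu : ∀ u, 2 * en c f u g₁ + D ≤ 2 * E g := by
      intro u
      refine (en_strict u g (fun y => g (v * y)) k₀ y₀ (by linarith)).trans ?_
      rw [en_shift, two_mul]
      exact add_le_add (le_iSup (fun u => en c f u g) u) (le_iSup (fun u => en c f u g) _)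
    have h2E : 2 * E g ≠ ∞ := ENNReal.mul_ne_top (by norm_num) hEg
    have h3 : 2 * E g₁ ≤ 2 * E g - D := by
      rw [hE]
      dsimp only
      rw [ENNReal.mul_iSup]
      exact iSup_le fun u => ENNReal.le_sub_of_add_le_right hDtop (hu u)
    have h4 : 2 * E g ≤ 2 * E g - D := by
      refine le_trans ?_ h3
      gcongr
      exact hgmin hg₁K
    have h5 : 2 * E g ≠ 0 := by
      intro h0
      have := hu 1
      rw [h0] at this
      exact hD0 (le_antisymm (le_trans le_add_self this) bot_le)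
    exact absurd h4 (not_le.2 (ENNReal.sub_lt_self h2E h5 hD0))
  -- conclusion
  have hconst : ∀ y, g y = g 1 := fun y => by simpa using hinv y 1
  refine ⟨g 1, fun O hO => ?_⟩
  obtain ⟨ε, hε, hball⟩ := Metric.mem_nhds_iff.1 hO
  obtain ⟨k, hk⟩ := exists_pow_lt_of_lt_one (half_pos hε) (by norm_num : (1 / 2 : ℝ) < 1)
  have hT : en c f 1 g ≠ ∞ := ne_top_of_le_ne_top hEg (le_iSup (fun u => en c f u g) 1)
  set η : ℝ≥0∞ := c k * ENNReal.ofReal ((ε / 2) ^ 2) with hη
  have hη0 : η ≠ 0 := by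
    refine mul_ne_zero (hc0 _) ?_
    rw [Ne, ENNReal.ofReal_eq_zero, not_le]
    positivity
  have hfin := ENNReal.finite_const_le_of_tsum_ne_top hT hη0
  refine (hfin.image Prod.snd).subset fun y hy => ⟨(k, y), ?_, rfl⟩
  have hy' : ε ≤ |f y - g 1| := by
    by_contra hlt
    exact hy (hball (by rw [Metric.mem_ball, Real.dist_eq]; exact not_le.1 hlt))
  rw [mem_setOf_eq, hη]
  dsimp only
  gcongr
  refine le_ph (by positivity) ?_
  rw [hconst y, one_mul, abs_sub_comm]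
  linarith

/-- **Bergman groups, dominated rates.** -/
theorem bergman_dominated (hG : Bergman G) (hf : SlowOsc f)
    (hd : ∃ g : ℕ → ℕ, ∀ u : G, ∀ᶠ k in atTop, rate f u k ≤ g k) : ConstAtInf f := by
  obtain ⟨M, hM⟩ := bergman_bdd hG hf
  obtain ⟨h, hh⟩ := bergman_rate hG hf hd
  exact constAtInf_of_uniform hf hM hh

/-- finite range -/
theorem bergman_finite_range (hG : Bergman G) (hf : SlowOsc f) (hr : (range f).Finite) :
    ConstAtInf f := by
  refine bergman_dominated hG hf ⟨fun k => k, fun u => ?_⟩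
  obtain ⟨δ, hδ, hδ'⟩ : ∃ δ : ℝ, 0 < δ ∧ ∀ x y, f x ≠ f y → δ ≤ |f x - f y| := by
    set T : Set ℝ := (fun p : ℝ × ℝ => |p.1 - p.2|) '' (range f ×ˢ range f) \ {0} with hT
    have hTf : T.Finite := ((hr.prod hr).image _).diff
    rcases T.eq_empty_or_nonempty with h0 | hne
    · refine ⟨1, one_pos, fun x y hxy => ?_⟩
      exfalso
      have : |f x - f y| ∈ T :=
        ⟨⟨(f x, f y), ⟨⟨x, rfl⟩, ⟨y, rfl⟩⟩, rfl⟩, abs_ne_zero.2 (sub_ne_zero.2 hxy)⟩
      rw [h0] at this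
      exact this
    · obtain ⟨t, ht, ht'⟩ := hTf.isCompact.exists_isLeast hne
      refine ⟨t, ?_, fun x y hxy => ht' ?_⟩
      · obtain ⟨⟨p, _, hp⟩, h0⟩ := ht
        have : 0 ≤ t := by rw [← hp]; exact abs_nonneg _
        exact lt_of_le_of_ne this fun e => h0 e.symm
      · exact ⟨⟨(f x, f y), ⟨⟨x, rfl⟩, ⟨y, rfl⟩⟩, rfl⟩, abs_ne_zero.2 (sub_ne_zero.2 hxy)⟩
  have hfin : {y | δ ≤ |f (u * y) - f y|}.Finite := hf.fin u hδ
  filter_upwards [eventually_ge_atTop {y | δ ≤ |f (u * y) - f y|}.ncard] with k hk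
  refine le_trans (ncard_le_ncard (fun y hy => ?_) hfin) hk
  refine hδ' _ _ fun e => ?_
  have hy' : (1 / 2 : ℝ) ^ k ≤ |f (u * y) - f y| := hy
  rw [e, sub_self, abs_zero] at hy'
  have : 0 < (1 / 2 : ℝ) ^ k := by positivity
  linarith

end Pool.Agent.X214.SO
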