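import Mathlib

/-! The convex functions `x ↦ max (|x| - r) 0 ^ 2`. -/

namespace Pool.Agent.X214.SO

def ph (r x : ℝ) : ℝ := (max (|x| - r) 0) ^ 2

theorem ph_nonneg (r x : ℝ) : 0 ≤ ph r x := sq_nonneg _

theorem ph_cont (r : ℝ) : Continuous (ph r) := by
  unfold ph; fun_prop

theorem ph_conv {r : ℝ} (x h : ℝ) : 2 * ph r x ≤ ph r (x + h) + ph r (x - h) := by
  unfold ph
  have h1 : 2 * |x| ≤ |x + h| + |x - h| := by
    have := abs_add_le (x + h) (x - h)
    have e : (x + h) + (x - h) = 2 * x := by ring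
    rw [e, abs_mul, abs_of_pos (by norm_num : (0 : ℝ) < 2)] at this
    exact this
  set a := max (|x + h| - r) 0
  set b := max (|x - h| - r) 0
  have ha : |x + h| - r ≤ a := le_max_left _ _
  have hb : |x - h| - r ≤ b := le_max_left _ _
  have ha0 : 0 ≤ a := le_max_right _ _
  have hb0 : 0 ≤ b := le_max_right _ _
  have hp : max (|x| - r) 0 ≤ (a + b) / 2 := max_le (by linarith) (by linarith)
  have hp0 : 0 ≤ max (|x| - r) 0 := le_max_right _ _
  nlinarith [sq_nonneg (a - b), mul_self_le_mul_self hp0 hp]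

theorem ph_strict_aux {r x h : ℝ} (hr : 0 ≤ r) (hx : 0 ≤ x) (hh : 2 * r ≤ h) :
    2 * ph r x + h ^ 2 / 4 ≤ ph r (x + h) + ph r (x - h) := by
  unfold ph
  have hh0 : 0 ≤ h := by linarith
  have e1 : max (|x + h| - r) 0 = x + h - r := by
    rw [abs_of_nonneg (by linarith)]; exact max_eq_left (by linarith)
  rw [e1, abs_of_nonneg hx]
  set b := max (|x - h| - r) 0
  have hb0 : 0 ≤ b := le_max_right _ _
  have hb1 : x - h - r ≤ b := le_trans (by have := le_abs_self (x - h); linarith) (le_max_left _ _)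
  rcases le_total r x with hrx | hrx
  · rw [max_eq_left (by linarith : (0 : ℝ) ≤ x - r)]
    set p := x - r with hp
    have hp0 : 0 ≤ p := by rw [hp]; linarith
    have : x + h - r = p + h := by rw [hp]; ring
    rw [this]
    rcases le_total h p with hph | hph
    · have : p - h ≤ b := by rw [hp]; linarith
      nlinarith [mul_self_le_mul_self (by linarith : (0 : ℝ) ≤ p - h) this, sq_nonneg h]
    · nlinarith [mul_nonneg hp0 hh0, mul_nonneg hp0 (sub_nonneg.2 hph), sq_nonneg h, sq_nonneg b]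
  · rw [max_eq_right (by linarith : x - r ≤ (0 : ℝ))]
    have : h / 2 ≤ x + h - r := by linarith
    nlinarith [mul_self_le_mul_self (by linarith : (0 : ℝ) ≤ h / 2) this, sq_nonneg b]

theorem ph_neg (r x : ℝ) : ph r (-x) = ph r x := by unfold ph; rw [abs_neg]

theorem ph_strict {r x h : ℝ} (hr : 0 ≤ r) (hh : 2 * r ≤ |h|) :
    2 * ph r x + h ^ 2 / 4 ≤ ph r (x + h) + ph r (x - h) := by
  have key : ∀ x : ℝ, 0 ≤ x → 2 * ph r x + h ^ 2 / 4 ≤ ph r (x + h) + ph r (x - h) := by
    intro x hx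
    rcases le_total 0 h with h0 | h0
    · rw [abs_of_nonneg h0] at hh
      exact ph_strict_aux hr hx hh
    · rw [abs_of_nonpos h0] at hh
      have := ph_strict_aux hr hx hh
      rw [sub_neg_eq_add, ← sub_eq_add_neg, neg_sq] at this
      linarith
  rcases le_total 0 x with h0 | h0
  · exact key x h0
  · have := key (-x) (by linarith)
    rw [ph_neg, show -x + h = -(x - h) by ring, show -x - h = -(x + h) by ring, ph_neg, ph_neg]
      at this
    linarith

theorem ph_le {r x M : ℝ} (hr : 0 ≤ r) (hx : |x| ≤ M) : ph r x ≤ M ^ 2 := by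
  unfold ph
  have h0 : 0 ≤ M := (abs_nonneg x).trans hx
  have h1 : max (|x| - r) 0 ≤ M := max_le (by linarith) h0
  exact pow_le_pow_left₀ (le_max_right _ _) h1 2

theorem ph_zero {r x : ℝ} (hx : |x| ≤ r) : ph r x = 0 := by
  unfold ph; rw [max_eq_right (by linarith)]; norm_num

theorem le_ph {r x e : ℝ} (he : 0 ≤ e) (hx : r + e ≤ |x|) : e ^ 2 ≤ ph r x := by
  unfold ph
  exact pow_le_pow_left₀ he (le_trans (by linarith) (le_max_left _ _)) 2

end Pool.Agent.X214.SO
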