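import Mathlib

/-! Slowly oscillating functions on groups with commuting uncountable sets. -/

namespace Pool.Agent.X214.SO

open Filter Topology Set

/-- slowly oscillating functions for the finitary ballean (balls `{x} ∪ F x`) -/
def SlowOsc {G : Type*} [Group G] (f : G → ℝ) : Prop :=
  ∀ F : Set G, F.Finite → ∀ ε : ℝ, 0 < ε → ∃ B : Set G, B.Finite ∧
    ∀ x, x ∉ B → Metric.diam (f '' ({x} ∪ (fun g => g * x) '' F)) < ε

/-- constant at infinity -/
def ConstAtInf {G : Type*} (f : G → ℝ) : Prop :=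
  ∃ c : ℝ, ∀ O ∈ 𝓝 c, (f ⁻¹' O)ᶜ.Finite

variable {G : Type*} [Group G] {f : G → ℝ}

theorem SlowOsc.fin (hf : SlowOsc f) (g : G) {ε : ℝ} (hε : 0 < ε) :
    {x | ε ≤ |f (g * x) - f x|}.Finite := by
  obtain ⟨B, hB, h⟩ := hf {g} (finite_singleton g) ε hε
  refine hB.subset fun x hx => ?_
  by_contra hxB
  have h1 := h x hxB
  have h2 : |f (g * x) - f x| ≤ Metric.diam (f '' ({x} ∪ (fun g => g * x) '' {g})) := by
    rw [← Real.dist_eq]
    refine Metric.dist_le_diam_of_mem ?_ ?_ ?_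
    · exact (((finite_singleton x).union ((finite_singleton g).image _)).image f).isBounded
    · exact ⟨g * x, Or.inr ⟨g, rfl, rfl⟩, rfl⟩
    · exact ⟨x, Or.inl rfl, rfl⟩
  exact absurd (lt_of_le_of_lt h2 h1) (not_lt.2 hx)

/-- `f` tends to `c` at infinity on `A` -/
def Lim (f : G → ℝ) (A : Set G) (c : ℝ) : Prop :=
  ∀ ε : ℝ, 0 < ε → {u | u ∈ A ∧ ε ≤ |f u - c|}.Finite

theorem Lim.mono {A A' : Set G} {c : ℝ} (h : Lim f A c) (hs : A' ⊆ A) : Lim f A' c :=
  fun ε hε => (h ε hε).subset fun _ hu => ⟨hs hu.1, hu.2⟩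

theorem Lim.unique {A : Set G} (hA : A.Infinite) {c c' : ℝ} (h : Lim f A c) (h' : Lim f A c') :
    c = c' := by
  by_contra hne
  have hε : 0 < |c - c'| / 2 := by
    have := abs_pos.2 (sub_ne_zero.2 hne); linarith
  obtain ⟨u, hu, hu'⟩ := (hA.diff ((h _ hε).union (h' _ hε))).nonempty
  rw [mem_union, not_or] at hu'
  have h1 : |f u - c| < |c - c'| / 2 := by
    by_contra hc; exact hu'.1 ⟨hu, not_lt.1 hc⟩
  have h2 : |f u - c'| < |c - c'| / 2 := by
    by_contra hc; exact hu'.2 ⟨hu, not_lt.1 hc⟩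
  have h3 : |c - c'| ≤ |f u - c| + |f u - c'| := by
    have := abs_sub_le c (f u) c'
    rw [abs_sub_comm c (f u)] at this
    exact this
  linarith

/-- countable sets of exceptions -/
theorem countable_exc (hf : SlowOsc f) (u : G) : {x | f (u * x) ≠ f x}.Countable := by
  have : {x | f (u * x) ≠ f x} ⊆ ⋃ k : ℕ, {x | 1 / ((k : ℝ) + 1) ≤ |f (u * x) - f x|} := by
    intro x hx
    have h1 : 0 < |f (u * x) - f x| := abs_pos.2 (sub_ne_zero.2 hx)
    obtain ⟨k, hk⟩ := exists_nat_one_div_lt h1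
    exact mem_iUnion.2 ⟨k, hk.le⟩
  exact (countable_iUnion fun k => (hf.fin u (by positivity)).countable).mono this

theorem step1 (hf : SlowOsc f) {A B : Set G} (hc : ∀ a ∈ A, ∀ b ∈ B, a * b = b * a)
    {C : Set G} (hCA : C ⊆ A) (hC : C.Countable) :
    ∃ D : Set G, D.Countable ∧ ∀ x ∈ B, x ∉ D → Lim f C (f x) := by
  refine ⟨⋃ u ∈ C, {x | f (u * x) ≠ f x}, hC.biUnion fun u _ => countable_exc hf u, ?_⟩
  intro x hxB hxD ε hε
  refine (hf.fin x hε).subset fun u hu => ?_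
  have h1 : f (u * x) = f x := by
    by_contra hne
    exact hxD (mem_iUnion₂.2 ⟨u, hu.1, hne⟩)
  have h2 : u * x = x * u := hc u (hCA hu.1) x hxB
  change ε ≤ |f (x * u) - f u|
  rw [← h2, h1, abs_sub_comm]
  exact hu.2

theorem lim_of_comm (hf : SlowOsc f) {A B : Set G} (hc : ∀ a ∈ A, ∀ b ∈ B, a * b = b * a)
    (hA : A.Infinite) (hB : ¬ B.Countable) : ∃ c, Lim f A c := by
  have hpick : ∀ D : Set G, D.Countable → ∃ x ∈ B, x ∉ D := by
    intro D hD
    by_contra hcon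
    push Not at hcon
    exact hB (hD.mono hcon)
  obtain ⟨C₀, hC₀A, hC₀i, hC₀c⟩ : ∃ C₀ ⊆ A, C₀.Infinite ∧ C₀.Countable := by
    refine ⟨range fun n : ℕ => (hA.natEmbedding A n : G), ?_, ?_, countable_range _⟩
    · rintro _ ⟨n, rfl⟩; exact (hA.natEmbedding A n).2
    · exact infinite_range_of_injective (Subtype.val_injective.comp (hA.natEmbedding A).injective)
  obtain ⟨D₀, hD₀, h₀⟩ := step1 hf hc hC₀A hC₀c
  obtain ⟨x₀, hx₀B, hx₀D⟩ := hpick D₀ hD₀
  refine ⟨f x₀, fun ε hε => ?_⟩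
  by_contra hinf
  have hinf' : {u | u ∈ A ∧ ε ≤ |f u - f x₀|}.Infinite := hinf
  obtain ⟨C₁, hC₁A, hC₁i, hC₁c⟩ : ∃ C₁ ⊆ {u | u ∈ A ∧ ε ≤ |f u - f x₀|},
      C₁.Infinite ∧ C₁.Countable := by
    refine ⟨range fun n : ℕ => (hinf'.natEmbedding _ n : G), ?_, ?_, countable_range _⟩
    · rintro _ ⟨n, rfl⟩; exact (hinf'.natEmbedding _ n).2
    · exact infinite_range_of_injective
        (Subtype.val_injective.comp (hinf'.natEmbedding _).injective)
  have hCA : C₀ ∪ C₁ ⊆ A := union_subset hC₀A fun u hu => (hC₁A hu).1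
  obtain ⟨D, hD, h⟩ := step1 hf hc hCA (hC₀c.union hC₁c)
  obtain ⟨x, hxB, hxD⟩ := hpick (D ∪ D₀) (hD.union hD₀)
  rw [mem_union, not_or] at hxD
  have h1 := h x hxB hxD.1
  have h2 : f x = f x₀ := (h1.mono subset_union_left).unique hC₀i (h₀ x₀ hx₀B hx₀D)
  have h3 := h1.mono (subset_union_right (s := C₀)) ε hε
  refine hC₁i (h3.subset fun u hu => ⟨hu, ?_⟩)
  rw [h2]
  exact (hC₁A hu).2

/-- a linked family: uncountable sets with uncountable commuting partners, closed under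
conjugation, any two of them linked through a third one with infinite intersections -/
structure Linked (𝒜 : Set (Set G)) : Prop where
  nonempty : 𝒜.Nonempty
  uncountable : ∀ A ∈ 𝒜, ¬ A.Countable
  partner : ∀ A ∈ 𝒜, ∃ B : Set G, ¬ B.Countable ∧ ∀ a ∈ A, ∀ b ∈ B, a * b = b * a
  conj : ∀ A ∈ 𝒜, ∀ u : G, (fun a => u⁻¹ * a * u) '' A ∈ 𝒜
  link : ∀ A ∈ 𝒜, ∀ A' ∈ 𝒜, ∃ A'' ∈ 𝒜, (A ∩ A'').Infinite ∧ (A'' ∩ A').Infinite

theorem constAtInf_of_linked {𝒜 : Set (Set G)} (h𝒜 : Linked 𝒜) (hf : SlowOsc f) :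
    ConstAtInf f := by
  have hlim : ∀ A ∈ 𝒜, ∃ c, Lim f A c := by
    intro A hA
    obtain ⟨B, hB, hc⟩ := h𝒜.partner A hA
    exact lim_of_comm hf hc (fun hfin => h𝒜.uncountable A hA hfin.countable) hB
  obtain ⟨A₀, hA₀⟩ := h𝒜.nonempty
  obtain ⟨c, hc⟩ := hlim A₀ hA₀
  have hall : ∀ A ∈ 𝒜, Lim f A c := by
    intro A hA
    obtain ⟨A'', hA'', h1, h2⟩ := h𝒜.link A₀ hA₀ A hA
    obtain ⟨c'', hc''⟩ := hlim A'' hA''
    obtain ⟨c', hc'⟩ := hlim A hA
    have e1 : c = c'' := (hc.mono inter_subset_left).unique h1 (hc''.mono inter_subset_right)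
    have e2 : c'' = c' := (hc''.mono inter_subset_left).unique h2 (hc'.mono inter_subset_right)
    rw [e1, e2]
    exact hc'
  have key : ∀ ε : ℝ, 0 < ε → {g | ε ≤ |f g - c|}.Finite := by
    intro ε hε
    by_contra hinf
    have hinf' : {g | ε ≤ |f g - c|}.Infinite := hinf
    have he4 : 0 < ε / 4 := by linarith
    let s : ℕ → G := fun n => (hinf'.natEmbedding _ n : G)
    have hs : Function.Injective s :=
      Subtype.val_injective.comp (hinf'.natEmbedding _).injective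
    have hsm : ∀ n, ε ≤ |f (s n) - c| := fun n => (hinf'.natEmbedding _ n).2
    -- exceptional sets
    have hexc : ∀ u : G, {y | y ∈ A₀ ∧ ε / 2 ≤ |f (y * u) - c|}.Finite := by
      intro u
      have h1 := hf.fin u he4
      have h2 := hall _ (h𝒜.conj A₀ hA₀ u) (ε / 4) he4
      refine Finite.of_finite_image (f := fun a => u⁻¹ * a * u) ?_ ?_
      · refine (h1.union h2).subset ?_
        rintro _ ⟨y, ⟨hy, hy2⟩, rfl⟩
        simp only
        by_cases hcase : ε / 4 ≤ |f (u * (u⁻¹ * y * u)) - f (u⁻¹ * y * u)|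
        · exact Or.inl hcase
        · refine Or.inr ⟨⟨y, hy, rfl⟩, ?_⟩
          have e : u * (u⁻¹ * y * u) = y * u := by group
          rw [e] at hcase
          push Not at hcase
          have := abs_sub_le (f (y * u)) (f (u⁻¹ * y * u)) c
          linarith
      · intro x _ y _ hxy
        simp only at hxy
        exact mul_left_cancel (mul_right_cancel hxy)
    have hun : (⋃ n, {y | y ∈ A₀ ∧ ε / 2 ≤ |f (y * s n) - c|}).Countable :=
      countable_iUnion fun n => (hexc (s n)).countable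
    obtain ⟨y, hyA, hy⟩ : ∃ y ∈ A₀, y ∉ ⋃ n, {y | y ∈ A₀ ∧ ε / 2 ≤ |f (y * s n) - c|} := by
      by_contra hcon
      push Not at hcon
      exact h𝒜.uncountable A₀ hA₀ (hun.mono hcon)
    have h1 : ∀ n, |f (y * s n) - c| < ε / 2 := by
      intro n
      by_contra hcon
      exact hy (mem_iUnion.2 ⟨n, hyA, not_lt.1 hcon⟩)
    have h2 := hf.fin y (by linarith : 0 < ε / 2)
    have h3 : {n | ε / 2 ≤ |f (y * s n) - f (s n)|}.Finite :=
      Finite.of_finite_image (h2.subset (by rintro _ ⟨n, hn, rfl⟩; exact hn)) hs.injOn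
    obtain ⟨n, hn⟩ := h3.infinite_compl.nonempty
    have h4 : |f (y * s n) - f (s n)| < ε / 2 := not_le.1 hn
    have h5 := abs_sub_le (f (s n)) (f (y * s n)) c
    have h6 := abs_sub_comm (f (s n)) (f (y * s n))
    linarith [hsm n, h1 n]
  refine ⟨c, fun O hO => ?_⟩
  obtain ⟨ε, hε, hball⟩ := Metric.mem_nhds_iff.1 hO
  refine (key ε hε).subset fun g hg => ?_
  by_contra hcon
  refine hg (hball ?_)
  rw [Metric.mem_ball, Real.dist_eq]
  exact not_le.1 hcon

end Pool.Agent.X214.SO
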