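import Pool.Agent.X214.SO.Berg
import Pool.Agent.X214.SO.Conv

/-! The energy functional and its minimisers. -/

namespace Pool.Agent.X214.SO

open Filter Topology Set
open scoped ENNReal Pointwise

variable {G : Type*} [Group G]

/-- the energy term at `u` -/
noncomputable def en (c : ℕ → ℝ≥0∞) (f : G → ℝ) (u : G) (g : G → ℝ) : ℝ≥0∞ :=
  ∑' p : ℕ × G, c p.1 * ENNReal.ofReal (ph ((1 / 2 : ℝ) ^ p.1) (g p.2 - f (u * p.2)))

theorem en_lsc {c : ℕ → ℝ≥0∞} (hc : ∀ k, c k ≠ ∞) (f : G → ℝ) (u : G) :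
    LowerSemicontinuous (en c f u) := by
  refine lowerSemicontinuous_tsum fun p => Continuous.lowerSemicontinuous ?_
  refine (ENNReal.continuous_const_mul (hc p.1)).comp (ENNReal.continuous_ofReal.comp ?_)
  exact (ph_cont _).comp ((continuous_apply p.2).sub continuous_const)

theorem en_shift (c : ℕ → ℝ≥0∞) (f : G → ℝ) (u v : G) (g : G → ℝ) :
    en c f u (fun y => g (v * y)) = en c f (u * v⁻¹) g := by
  unfold en
  rw [← (Equiv.prodCongr (Equiv.refl ℕ) (Equiv.mulLeft v)).tsum_eq (fun p : ℕ × G =>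
    c p.1 * ENNReal.ofReal (ph ((1 / 2 : ℝ) ^ p.1) (g p.2 - f (u * v⁻¹ * p.2))))]
  refine tsum_congr fun p => ?_
  simp [mul_assoc]

theorem en_bound {c : ℕ → ℝ≥0∞} {f : G → ℝ} (hf : SlowOsc f) {M : ℝ} (hM : ∀ x, |f x| ≤ M)
    {h : ℕ → ℕ} (hh : ∀ u k, rate f u k ≤ h k) (u : G) :
    en c f u f ≤ ∑' k : ℕ, c k * (h k * ENNReal.ofReal ((2 * M) ^ 2)) := by
  unfold en
  rw [ENNReal.tsum_prod (f := fun k y => c k * ENNReal.ofReal
    (ph ((1 / 2 : ℝ) ^ k) (f y - f (u * y))))]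
  refine ENNReal.tsum_le_tsum fun k => ?_
  rw [ENNReal.tsum_mul_left]
  gcongr
  set S : Set G := {y | (1 / 2 : ℝ) ^ k ≤ |f (u * y) - f y|} with hS
  have hSf : S.Finite := rate_fin hf u k
  have h1 : ∑' y, ENNReal.ofReal (ph ((1 / 2 : ℝ) ^ k) (f y - f (u * y)))
      = ∑ y ∈ hSf.toFinset, ENNReal.ofReal (ph ((1 / 2 : ℝ) ^ k) (f y - f (u * y))) := by
    refine tsum_eq_sum fun y hy => ?_
    rw [Set.Finite.mem_toFinset] at hy
    rw [ph_zero, ENNReal.ofReal_zero]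
    rw [abs_sub_comm]
    exact (not_le.1 hy).le
  rw [h1]
  refine (Finset.sum_le_card_nsmul _ _ (ENNReal.ofReal ((2 * M) ^ 2)) fun y _ => ?_).trans ?_
  · refine ENNReal.ofReal_le_ofReal (ph_le (by positivity) ?_)
    have h2 := abs_sub (f y) (f (u * y))
    have h3 := hM y
    have h4 := hM (u * y)
    linarith
  · rw [nsmul_eq_mul]
    gcongr
    have : hSf.toFinset.card = rate f u k := by
      unfold rate
      rw [ncard_eq_toFinset_card _ hSf]
    rw [this]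
    exact_mod_cast hh u k

theorem en_strict {c : ℕ → ℝ≥0∞} {f : G → ℝ} (u : G) (g g' : G → ℝ) (k₀ : ℕ) (y₀ : G)
    (hk : 2 * (1 / 2 : ℝ) ^ k₀ ≤ |(g y₀ - g' y₀) / 2|) :
    2 * en c f u (fun y => (g y + g' y) / 2) +
      c k₀ * ENNReal.ofReal (((g y₀ - g' y₀) / 2) ^ 2 / 4) ≤ en c f u g + en c f u g' := by
  classical
  unfold en
  rw [← ENNReal.tsum_mul_left, ← ENNReal.tsum_add]
  have h1 : c k₀ * ENNReal.ofReal (((g y₀ - g' y₀) / 2) ^ 2 / 4) = ∑' p : ℕ × G,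
      (if p = (k₀, y₀) then c k₀ * ENNReal.ofReal (((g y₀ - g' y₀) / 2) ^ 2 / 4) else 0) := by
    rw [tsum_ite_eq]
  rw [h1, ← ENNReal.tsum_add]
  refine ENNReal.tsum_le_tsum fun p => ?_
  obtain ⟨k, y⟩ := p
  have hx : ∀ a : ℝ, g y - a = ((g y + g' y) / 2 - a) + (g y - g' y) / 2 := fun a => by ring
  have hx' : ∀ a : ℝ, g' y - a = ((g y + g' y) / 2 - a) - (g y - g' y) / 2 := fun a => by ring
  dsimp only
  set a := f (u * y)
  rw [hx a, hx' a]
  set x := (g y + g' y) / 2 - a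
  by_cases hp : (k, y) = (k₀, y₀)
  · rw [if_pos hp]
    obtain ⟨rfl, rfl⟩ := Prod.mk.inj hp
    have h2 := ph_strict (r := (1 / 2 : ℝ) ^ k) (x := x) (h := (g y - g' y) / 2)
      (by positivity) hk
    rw [← mul_add, ← ENNReal.ofReal_add (ph_nonneg _ _) (ph_nonneg _ _)]
    calc 2 * (c k * ENNReal.ofReal (ph ((1 / 2) ^ k) x)) +
          c k * ENNReal.ofReal (((g y - g' y) / 2) ^ 2 / 4)
        = c k * ENNReal.ofReal (2 * ph ((1 / 2) ^ k) x + ((g y - g' y) / 2) ^ 2 / 4) := by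
          rw [ENNReal.ofReal_add (by have := ph_nonneg ((1 / 2 : ℝ) ^ k) x; positivity)
            (by positivity), ENNReal.ofReal_mul (by norm_num), mul_add]
          congr 1
          rw [ENNReal.ofReal_ofNat]
          ring
      _ ≤ _ := by gcongr
  · rw [if_neg hp, add_zero]
    have h2 := ph_conv (r := (1 / 2 : ℝ) ^ k) x ((g y - g' y) / 2)
    rw [← mul_add, ← ENNReal.ofReal_add (ph_nonneg _ _) (ph_nonneg _ _)]
    calc 2 * (c k * ENNReal.ofReal (ph ((1 / 2) ^ k) x))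
        = c k * ENNReal.ofReal (2 * ph ((1 / 2) ^ k) x) := by
          rw [ENNReal.ofReal_mul (by norm_num), ENNReal.ofReal_ofNat]
          ring
      _ ≤ _ := by gcongr

end Pool.Agent.X214.SO
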