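import Pool.Agent.X214.SO.BergMain

/-! On a Bergman group the limit points at infinity of an so-function form an interval. -/

namespace Pool.Agent.X214.SO

open Filter Topology Set
open scoped ENNReal Pointwise

variable {G : Type*} [Group G] {f : G → ℝ}

open Classical in
/-- the indicator of `f > a` -/
noncomputable def ind (f : G → ℝ) (a : ℝ) (x : G) : ℝ := if f x ≤ a then 0 else 1

theorem ind_slowOsc (hf : SlowOsc f) {a b : ℝ} (hab : a < b)
    (hgap : {x | a < f x ∧ f x < b}.Finite) : SlowOsc (ind f a) := by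
  intro F hF ε hε
  obtain ⟨B, hB, hB'⟩ := hf F hF (b - a) (sub_pos.2 hab)
  set W : Set G := {x | a < f x ∧ f x < b} with hW
  refine ⟨B ∪ W ∪ ⋃ g ∈ F, (fun x => g * x) ⁻¹' W, ?_, fun x hx => ?_⟩
  · refine (hB.union hgap).union (hF.biUnion fun g _ => ?_)
    exact hgap.preimage (mul_right_injective g).injOn
  · rw [mem_union, mem_union, not_or, not_or] at hx
    obtain ⟨⟨hxB, hxW⟩, hxU⟩ := hx
    set S : Set G := {x} ∪ (fun g => g * x) '' F with hS
    have hSf : S.Finite := (finite_singleton x).union (hF.image _)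
    have hSW : ∀ z ∈ S, z ∉ W := by
      rintro z (rfl | ⟨g, hg, rfl⟩)
      · exact hxW
      · intro hz
        exact hxU (mem_iUnion₂.2 ⟨g, hg, hz⟩)
    have hd := hB' x hxB
    have hsame : ∀ z ∈ S, ∀ w ∈ S, f z ≤ a → f w ≤ a := by
      intro z hz w hw hza
      by_contra hwa
      have hwb : b ≤ f w := by
        by_contra hwb
        exact hSW w hw ⟨not_le.1 hwa, not_le.1 hwb⟩
      have h1 : |f w - f z| ≤ Metric.diam (f '' S) := by
        rw [← Real.dist_eq]
        exact Metric.dist_le_diam_of_mem (hSf.image f).isBounded ⟨w, hw, rfl⟩ ⟨z, hz, rfl⟩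
      have h2 := le_abs_self (f w - f z)
      linarith
    have hsub : (ind f a '' S).Subsingleton := by
      rintro _ ⟨z, hz, rfl⟩ _ ⟨w, hw, rfl⟩
      unfold ind
      by_cases h1 : f z ≤ a
      · rw [if_pos h1, if_pos (hsame z hz w hw h1)]
      · rw [if_neg h1, if_neg fun h2 => h1 (hsame w hw z hz h2)]
    rw [Metric.diam_subsingleton hsub]
    exact hε

theorem bergman_gap (hG : Bergman G) (hf : SlowOsc f) {a b : ℝ} (hab : a < b)
    (hgap : {x | a < f x ∧ f x < b}.Finite) : {x | f x ≤ a}.Finite ∨ {x | b ≤ f x}.Finite := by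
  have hr : (range (ind f a)).Finite := by
    refine (Set.toFinite ({0, 1} : Set ℝ)).subset ?_
    rintro _ ⟨x, rfl⟩
    unfold ind
    split_ifs <;> simp
  obtain ⟨c, hc⟩ := bergman_finite_range hG (ind_slowOsc hf hab hgap) hr
  by_cases hc0 : c = 0
  · right
    have hO : ({1}ᶜ : Set ℝ) ∈ 𝓝 c := by
      rw [hc0]
      exact isOpen_compl_singleton.mem_nhds (by simp)
    refine (hc _ hO).subset fun x hx => ?_
    have hx' : ¬ f x ≤ a := by
      have : b ≤ f x := hx
      linarith
    simp [ind, hx']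
  · left
    have hO : ({0}ᶜ : Set ℝ) ∈ 𝓝 c := isOpen_compl_singleton.mem_nhds hc0
    refine (hc _ hO).subset fun x hx => ?_
    have hx' : f x ≤ a := hx
    simp [ind, hx']

end Pool.Agent.X214.SO
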