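import Pool.Agent.X214.SO.Core

/-! The symmetric group of any set. -/

namespace Pool.Agent.X214.SO

open Set Equiv

/-- permutations supported in `E` -/
def Sup {X : Type*} (E : Set X) : Set (Perm X) := {σ | ∀ x, x ∉ E → σ x = x}

theorem Sup_uncountable {X : Type*} {E : Set X} (hE : E.Infinite) : ¬ (Sup E).Countable := by
  classical
  intro hc
  haveI : Infinite E := hE.to_subtype
  have h1 : Function.Injective (Perm.ofSubtype : Perm E → Perm X) := Perm.ofSubtype_injective
  have h2 : range (Perm.ofSubtype : Perm E → Perm X) ⊆ Sup E := by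
    rintro _ ⟨σ, rfl⟩ x hx
    exact Perm.ofSubtype_apply_of_not_mem σ hx
  haveI : Countable (range (Perm.ofSubtype : Perm E → Perm X)) := (hc.mono h2).to_subtype
  haveI : Countable (Perm E) := (Equiv.ofInjective _ h1).countable_iff.2 inferInstance
  have h3 : Cardinal.mk (Perm E) ≤ Cardinal.aleph0 := Cardinal.mk_le_aleph0
  rw [Cardinal.mk_perm_eq_two_power] at h3
  have h4 : Cardinal.aleph0 ≤ Cardinal.mk E := Cardinal.aleph0_le_mk E
  have h5 : Cardinal.mk E < 2 ^ Cardinal.mk E := Cardinal.cantor _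
  exact absurd (h4.trans_lt h5) (not_lt.2 h3)

theorem Sup_comm {X : Type*} {E : Set X} {a b : Perm X} (ha : a ∈ Sup E) (hb : b ∈ Sup Eᶜ) :
    a * b = b * a := by
  have hbE : ∀ x ∈ E, b x = x := fun x hx => hb x (by simpa using hx)
  have haE : ∀ x ∈ E, a x ∈ E := by
    intro x hx
    by_contra hcon
    have h1 := ha (a x) hcon
    have h2 : a x = x := a.injective h1
    rw [h2] at hcon
    exact hcon hx
  have hbEc : ∀ x, x ∉ E → b x ∉ E := by
    intro x hx hcon
    have h1 := hbE (b x) hcon
    have h2 : b x = x := b.injective h1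
    rw [h2] at hcon
    exact hx hcon
  ext x
  rw [Perm.mul_apply, Perm.mul_apply]
  by_cases hx : x ∈ E
  · rw [hbE x hx, hbE (a x) (haE x hx)]
  · rw [ha x hx, ha (b x) (hbEc x hx)]

/-- an infinite set has an infinite subset with infinite complement in it -/
theorem split {X : Type*} {E : Set X} (hE : E.Infinite) :
    ∃ F ⊆ E, F.Infinite ∧ (E \ F).Infinite := by
  let s : ℕ → X := fun n => (hE.natEmbedding E n : X)
  have hs : Function.Injective s := Subtype.val_injective.comp (hE.natEmbedding E).injective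
  refine ⟨range fun n => s (2 * n), ?_, ?_, ?_⟩
  · rintro _ ⟨n, rfl⟩; exact (hE.natEmbedding E (2 * n)).2
  · exact infinite_range_of_injective fun a b hab => by
      have := hs hab; omega
  · refine Infinite.mono (s := range fun n => s (2 * n + 1)) ?_
      (infinite_range_of_injective fun a b hab => by have := hs hab; omega)
    rintro _ ⟨n, rfl⟩
    refine ⟨(hE.natEmbedding E (2 * n + 1)).2, ?_⟩
    rintro ⟨m, hm⟩
    have := hs hm
    omega

/-- supports of moieties -/
def Moi (X : Type*) : Set (Set (Perm X)) := {A | ∃ E : Set X, E.Infinite ∧ Eᶜ.Infinite ∧ A = Sup E}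

theorem moi_linked (X : Type*) [Infinite X] : Linked (Moi X) where
  nonempty := by
    obtain ⟨F, -, h1, h2⟩ := split (infinite_univ (α := X))
    refine ⟨Sup F, F, h1, ?_, rfl⟩
    rwa [← compl_eq_univ_diff] at h2
  uncountable := by
    rintro _ ⟨E, hE, -, rfl⟩
    exact Sup_uncountable hE
  partner := by
    rintro _ ⟨E, hE, hEc, rfl⟩
    exact ⟨Sup Eᶜ, Sup_uncountable hEc, fun a ha b hb => Sup_comm ha hb⟩
  conj := by
    rintro _ ⟨E, hE, hEc, rfl⟩ u
    refine ⟨u ⁻¹' E, ?_, ?_, ?_⟩
    · rw [← Equiv.image_symm_eq_preimage]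
      exact hE.image u.symm.injective.injOn
    · rw [← preimage_compl, ← Equiv.image_symm_eq_preimage]
      exact hEc.image u.symm.injective.injOn
    · ext σ
      constructor
      · rintro ⟨a, ha, rfl⟩ x hx
        simp only [Perm.mul_apply]
        rw [ha (u x) hx]
        exact u.symm_apply_apply x
      · intro hσ
        refine ⟨u * σ * u⁻¹, fun x hx => ?_, by group⟩
        simp only [Perm.mul_apply]
        have h1 : u (u⁻¹ x) = x := u.apply_symm_apply x
        have h2 : u⁻¹ x ∉ u ⁻¹' E := by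
          rw [mem_preimage, h1]; exact hx
        rw [hσ _ h2, h1]
  link := by
    rintro _ ⟨E, hE, hEc, rfl⟩ _ ⟨E', hE', hEc', rfl⟩
    have hsub : ∀ {S T : Set X}, (S ∩ T).Infinite → (Sup S ∩ Sup T).Infinite := by
      intro S T h
      have h1 : Sup (S ∩ T) ⊆ Sup S ∩ Sup T := fun σ hσ =>
        ⟨fun x hx => hσ x fun h => hx h.1, fun x hx => hσ x fun h => hx h.2⟩
      exact Infinite.mono h1 fun hfin => Sup_uncountable h hfin.countable
    by_cases hint : (E ∩ E').Infinite
    · exact ⟨Sup E, ⟨E, hE, hEc, rfl⟩, hsub (by rwa [inter_self]), hsub hint⟩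
    · have hfin : (E ∩ E').Finite := not_infinite.1 hint
      obtain ⟨F, hFE, hF, hEF⟩ := split hE
      refine ⟨Sup (F ∪ E'), ⟨F ∪ E', hF.mono subset_union_left, ?_, rfl⟩, hsub ?_, hsub ?_⟩
      · refine (hEF.diff hfin).mono ?_
        rintro x ⟨⟨hxE, hxF⟩, hx⟩
        rw [mem_compl_iff, mem_union, not_or]
        exact ⟨hxF, fun h => hx ⟨hxE, h⟩⟩
      · exact hF.mono fun x hx => ⟨hFE hx, Or.inl hx⟩
      · exact hE'.mono fun x hx => ⟨Or.inr hx, hx⟩

theorem constAtInf_perm (X : Type*) (f : Perm X → ℝ) (hf : SlowOsc f) : ConstAtInf f := by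
  rcases finite_or_infinite X with hX | hX
  · exact ⟨0, fun O _ => toFinite _⟩
  · exact constAtInf_of_linked (moi_linked X) hf

end Pool.Agent.X214.SO
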