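import Pool.Agent.X214.SO.BergMain

/-! Pseudobounded groups: so-functions with dominated rates are constant at infinity. -/

namespace Pool.Agent.X214.SO

open Filter Topology Set
open scoped ENNReal Pointwise

variable {G : Type*} [Group G] {f : G → ℝ}

/-- every so-function is bounded off a finite set -/
def Pseudobounded (G : Type*) [Group G] : Prop :=
  ∀ f : G → ℝ, SlowOsc f → ∃ B : Set G, B.Finite ∧ Bornology.IsBounded (f '' Bᶜ)

theorem slowOsc_of (h : ∀ u : G, ∀ ε : ℝ, 0 < ε → {x | ε ≤ |f (u * x) - f x|}.Finite) :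
    SlowOsc f := by
  intro F hF ε hε
  refine ⟨⋃ g ∈ F, {x | ε / 4 ≤ |f (g * x) - f x|}, hF.biUnion fun g _ => h g _ (by positivity),
    fun x hx => ?_⟩
  have hx' : ∀ g ∈ F, |f (g * x) - f x| < ε / 4 := by
    intro g hg
    by_contra hc
    exact hx (mem_iUnion₂.2 ⟨g, hg, not_lt.1 hc⟩)
  have h1 : ∀ z ∈ {x} ∪ (fun g => g * x) '' F, |f z - f x| ≤ ε / 4 := by
    rintro z (rfl | ⟨g, hg, rfl⟩)
    · simp; positivity
    · exact (hx' g hg).le
  refine lt_of_le_of_lt (Metric.diam_le_of_forall_dist_le (C := ε / 2) (by positivity) ?_)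
    (by linarith)
  rintro _ ⟨z, hz, rfl⟩ _ ⟨w, hw, rfl⟩
  rw [Real.dist_eq]
  have h2 := h1 z hz
  have h3 := h1 w hw
  have h4 := abs_sub_le (f z) (f x) (f w)
  rw [abs_sub_comm (f x)] at h4
  linarith

theorem Pseudobounded.bdd (hG : Pseudobounded G) (hf : SlowOsc f) : ∃ M : ℝ, ∀ x, |f x| ≤ M := by
  obtain ⟨B, hB, hb⟩ := hG f hf
  obtain ⟨C, hC⟩ := hb.exists_norm_le
  obtain ⟨C', hC'⟩ := (hB.image fun x => |f x|).bddAbove
  refine ⟨max C C', fun x => ?_⟩
  by_cases hx : x ∈ B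
  · exact (hC' ⟨x, hx, rfl⟩).trans (le_max_right _ _)
  · exact (hC _ ⟨x, hx, rfl⟩).trans (le_max_left _ _)

theorem block_bound (hf : SlowOsc f) {M : ℝ} (hM : ∀ x, |f x| ≤ M) (T : Finset G) (u x : G)
    (m k : ℕ) : ∑ y ∈ T, |f (u * (x * y)) - f (x * y)| ≤
      2 * M * rate f u k + T.card * (1 / 2 : ℝ) ^ k := by
  classical
  have hM0 : 0 ≤ M := (abs_nonneg _).trans (hM 1)
  have hd : ∀ y, |f (u * y) - f y| ≤ 2 * M := by
    intro y
    have h2 := abs_sub (f (u * y)) (f y)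
    have h3 := hM y
    have h4 := hM (u * y)
    linarith
  have h1 : ∀ y ∈ T, |f (u * (x * y)) - f (x * y)| ≤
      (if (1 / 2 : ℝ) ^ k ≤ |f (u * (x * y)) - f (x * y)| then 2 * M else 0) + (1 / 2 : ℝ) ^ k := by
    intro y _
    split_ifs with h
    · have := hd (x * y)
      have h0 : (0 : ℝ) ≤ (1 / 2) ^ k := by positivity
      linarith
    · rw [zero_add]; exact (not_le.1 h).le
  refine (Finset.sum_le_sum h1).trans ?_
  rw [Finset.sum_add_distrib, Finset.sum_const, nsmul_eq_mul, ← Finset.sum_filter,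
    Finset.sum_const, nsmul_eq_mul]
  have h2 : ({y ∈ T | (1 / 2 : ℝ) ^ k ≤ |f (u * (x * y)) - f (x * y)|}).card ≤ rate f u k := by
    rw [← Finset.card_image_of_injective _ (mul_right_injective x), ← ncard_coe_finset]
    refine ncard_le_ncard ?_ (rate_fin hf u k)
    intro z hz
    simp only [Finset.coe_image, Finset.coe_filter, mem_image, mem_setOf_eq] at hz
    obtain ⟨y, ⟨_, hy⟩, rfl⟩ := hz
    exact hy
  have h3 : (({y ∈ T | (1 / 2 : ℝ) ^ k ≤ |f (u * (x * y)) - f (x * y)|}).card : ℝ) ≤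
      rate f u k := by exact_mod_cast h2
  nlinarith [mul_le_mul_of_nonneg_right h3 (by linarith : (0 : ℝ) ≤ 2 * M)]

end Pool.Agent.X214.SO
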