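import Pool.Agent.X214.SO.Pseudo

/-! Pseudobounded groups: so-functions with dominated rates are constant at infinity. -/

namespace Pool.Agent.X214.SO

open Filter Topology Set
open scoped ENNReal Pointwise

variable {G : Type*} [Group G] {f : G → ℝ}

/-- weighted averages -/
noncomputable def av (f : G → ℝ) (T : ℕ → Finset G) (u x : G) (m : ℕ) : ℝ :=
  ((m : ℝ) / (T m).card) * ∑ y ∈ T m, |f (u * (x * y)) - f (x * y)|

theorem av_nonneg (T : ℕ → Finset G) (u x : G) (m : ℕ) : 0 ≤ av f T u x m := by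
  unfold av
  exact mul_nonneg (by positivity) (Finset.sum_nonneg fun _ _ => abs_nonneg _)

theorem av_le (hf : SlowOsc f) {M : ℝ} (hM : ∀ x, |f x| ≤ M) {T : ℕ → Finset G} {g : ℕ → ℕ}
    (hT : ∀ m, m * 2 ^ m * (g (2 * m) + 1) < (T m).card) (u x : G) (m : ℕ)
    (hr : rate f u (2 * m) ≤ g (2 * m)) : av f T u x m ≤ (1 / 2 : ℝ) ^ m * (1 + 2 * M) := by
  have hM0 : 0 ≤ M := (abs_nonneg _).trans (hM 1)
  have hc : (0 : ℝ) < (T m).card := by
    have := hT m
    exact_mod_cast (by omega : 0 < (T m).card)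
  have h1 := block_bound hf hM (T m) u x m (2 * m)
  have hr' : (rate f u (2 * m) : ℝ) ≤ g (2 * m) := by exact_mod_cast hr
  have hT' : (m : ℝ) * 2 ^ m * (g (2 * m) + 1) < (T m).card := by exact_mod_cast hT m
  have h2 : ∑ y ∈ T m, |f (u * (x * y)) - f (x * y)| ≤
      2 * M * g (2 * m) + (T m).card * (1 / 2 : ℝ) ^ (2 * m) := by
    refine h1.trans (add_le_add_left ?_ _)
    exact mul_le_mul_of_nonneg_left hr' (by linarith)
  have hp : (1 / 2 : ℝ) ^ m * 2 ^ m = 1 := by rw [← mul_pow]; norm_num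
  have hq : (0 : ℝ) < (1 / 2 : ℝ) ^ m := by positivity
  have hm : (m : ℝ) ≤ 2 ^ m := by exact_mod_cast (Nat.lt_two_pow_self (n := m)).le
  have h3 : (m : ℝ) * g (2 * m) ≤ (1 / 2 : ℝ) ^ m * (T m).card := by
    calc (m : ℝ) * g (2 * m) = (1 / 2 : ℝ) ^ m * (m * 2 ^ m * g (2 * m)) := by
          rw [show (1 / 2 : ℝ) ^ m * (m * 2 ^ m * g (2 * m)) =
            ((1 / 2 : ℝ) ^ m * 2 ^ m) * (m * g (2 * m)) by ring, hp, one_mul]
      _ ≤ (1 / 2 : ℝ) ^ m * (T m).card := by
          refine mul_le_mul_of_nonneg_left (le_trans ?_ hT'.le) hq.le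
          exact mul_le_mul_of_nonneg_left (by linarith) (by positivity)
  have h4 : (m : ℝ) * (1 / 2 : ℝ) ^ (2 * m) ≤ (1 / 2 : ℝ) ^ m := by
    calc (m : ℝ) * (1 / 2 : ℝ) ^ (2 * m) = (m * (1 / 2 : ℝ) ^ m) * (1 / 2 : ℝ) ^ m := by
          rw [two_mul, pow_add]; ring
      _ ≤ 1 * (1 / 2 : ℝ) ^ m := by
          refine mul_le_mul_of_nonneg_right ?_ hq.le
          have h := mul_le_mul_of_nonneg_left hm hq.le
          rw [hp] at h
          rw [mul_comm]
          exact h
      _ = _ := one_mul _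
  unfold av
  rw [div_mul_eq_mul_div, div_le_iff₀ hc]
  calc (m : ℝ) * ∑ y ∈ T m, |f (u * (x * y)) - f (x * y)|
      ≤ m * (2 * M * g (2 * m) + (T m).card * (1 / 2 : ℝ) ^ (2 * m)) :=
        mul_le_mul_of_nonneg_left h2 (Nat.cast_nonneg _)
    _ = 2 * M * (m * g (2 * m)) + (m * (1 / 2 : ℝ) ^ (2 * m)) * (T m).card := by ring
    _ ≤ 2 * M * ((1 / 2 : ℝ) ^ m * (T m).card) + (1 / 2 : ℝ) ^ m * (T m).card :=
        add_le_add (mul_le_mul_of_nonneg_left h3 (by linarith))
          (mul_le_mul_of_nonneg_right h4 hc.le)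
    _ = _ := by ring

theorem av_le' {M : ℝ} (hM : ∀ x, |f x| ≤ M) {T : ℕ → Finset G}
    (hT : ∀ m, 0 < (T m).card) (u x : G) (m : ℕ) : av f T u x m ≤ m * (2 * M) := by
  have hc : (0 : ℝ) < (T m).card := by exact_mod_cast hT m
  unfold av
  rw [div_mul_eq_mul_div, div_le_iff₀ hc]
  have h1 : ∑ y ∈ T m, |f (u * (x * y)) - f (x * y)| ≤ (T m).card • (2 * M) := by
    refine Finset.sum_le_card_nsmul _ _ _ fun y _ => ?_
    have h2 := abs_sub (f (u * (x * y))) (f (x * y))
    have h3 := hM (x * y)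
    have h4 := hM (u * (x * y))
    linarith
  rw [nsmul_eq_mul] at h1
  calc (m : ℝ) * ∑ y ∈ T m, |f (u * (x * y)) - f (x * y)|
      ≤ m * ((T m).card * (2 * M)) := mul_le_mul_of_nonneg_left h1 (Nat.cast_nonneg _)
    _ = _ := by ring

theorem av_tendsto (hf : SlowOsc f) (T : ℕ → Finset G) (u : G) (m : ℕ) :
    Tendsto (fun x => av f T u x m) cofinite (𝓝 0) := by
  have hz : Tendsto (fun z => |f (u * z) - f z|) cofinite (𝓝 0) := by
    refine Metric.tendsto_nhds.2 fun ε hε => ?_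
    rw [eventually_cofinite]
    refine (hf.fin u hε).subset fun z hz => ?_
    rw [mem_setOf_eq, Real.dist_eq, sub_zero, abs_abs, not_lt] at hz
    exact hz
  unfold av
  have h1 : Tendsto (fun x => ∑ y ∈ T m, |f (u * (x * y)) - f (x * y)|) cofinite
      (𝓝 (∑ y ∈ T m, (0 : ℝ))) := by
    refine tendsto_finset_sum _ fun y _ => ?_
    exact hz.comp (mul_left_injective y).tendsto_cofinite
  rw [Finset.sum_const_zero] at h1
  simpa using h1.const_mul ((m : ℝ) / (T m).card)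

theorem av_diff (T : ℕ → Finset G) (u x : G) (m : ℕ) :
    |av f T (u * x) 1 m - av f T x 1 m| ≤ av f T u x m := by
  unfold av
  rw [← mul_sub, ← Finset.sum_sub_distrib, abs_mul, abs_of_nonneg (by positivity)]
  refine mul_le_mul_of_nonneg_left ?_ (by positivity)
  refine (Finset.abs_sum_le_sum_abs _ _).trans (Finset.sum_le_sum fun y _ => ?_)
  refine (abs_abs_sub_abs_le_abs_sub _ _).trans (le_of_eq ?_)
  rw [one_mul, mul_assoc]
  congr 1
  ring

theorem pseudobounded_dominated (hG : Pseudobounded G) (hf : SlowOsc f)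
    (hd : ∃ g : ℕ → ℕ, ∀ u : G, ∀ᶠ k in atTop, rate f u k ≤ g k) : ConstAtInf f := by
  obtain ⟨M, hM⟩ := hG.bdd hf
  have hM0 : 0 ≤ M := (abs_nonneg _).trans (hM 1)
  obtain ⟨g, hg⟩ := hd
  by_contra hcon
  have h1 : ∃ k, ∀ N : ℕ, ∃ u, N < rate f u k := by
    by_contra hc
    push Not at hc
    choose h hh using hc
    exact hcon (constAtInf_of_uniform hf hM (h := h) fun u k => hh k u)
  obtain ⟨k, hk⟩ := h1
  choose v hv using fun m : ℕ => hk (m * 2 ^ m * (g (2 * m) + 1))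
  set T : ℕ → Finset G := fun m => (rate_fin hf (v m) k).toFinset with hTdef
  have hTc : ∀ m, (T m).card = rate f (v m) k := fun m =>
    (ncard_eq_toFinset_card _ (rate_fin hf (v m) k)).symm
  have hT : ∀ m, m * 2 ^ m * (g (2 * m) + 1) < (T m).card := fun m => by
    rw [hTc]; exact hv m
  have hT0 : ∀ m, 0 < (T m).card := fun m => lt_of_le_of_lt (Nat.zero_le _) (hT m)
  have hgeo : Summable fun m : ℕ => (1 / 2 : ℝ) ^ m * (1 + 2 * M) :=
    summable_geometric_two.mul_right _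
  have hev : ∀ u, ∃ K, ∀ m, K ≤ m → ∀ x, av f T u x m ≤ (1 / 2 : ℝ) ^ m * (1 + 2 * M) := by
    intro u
    obtain ⟨K, hK⟩ := eventually_atTop.1 (hg u)
    exact ⟨K, fun m hm x => av_le hf hM hT u x m (hK _ (by omega))⟩
  -- a summable bound
  have hbound : ∀ u, ∃ bd : ℕ → ℝ, Summable bd ∧ ∀ m x, av f T u x m ≤ bd m := by
    intro u
    obtain ⟨K, hK⟩ := hev u
    refine ⟨fun m => (if m < K then (m : ℝ) * (2 * M) else 0) + (1 / 2 : ℝ) ^ m * (1 + 2 * M),
      Summable.add ?_ hgeo, fun m x => ?_⟩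
    · refine summable_of_ne_finset_zero (s := Finset.range K) fun m hm => ?_
      rw [if_neg]
      simpa using hm
    · dsimp only
      split_ifs with h
      · have := av_le' hM hT0 u x m
        have h0 : 0 ≤ (1 / 2 : ℝ) ^ m * (1 + 2 * M) := by positivity
        linarith
      · rw [zero_add]; exact hK m (not_lt.1 h) x
  have hsum : ∀ u x, Summable (av f T u x) := by
    intro u x
    obtain ⟨bd, hbd, hb⟩ := hbound u
    exact Summable.of_nonneg_of_le (fun m => av_nonneg T u x m) (fun m => hb m x) hbd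
  set Φ : G → ℝ := fun x => ∑' m, av f T x 1 m with hΦ
  have hΦd : ∀ u x, |Φ (u * x) - Φ x| ≤ ∑' m, av f T u x m := by
    intro u x
    have e : Φ (u * x) - Φ x = ∑' m, (av f T (u * x) 1 m - av f T x 1 m) :=
      ((hsum (u * x) 1).tsum_sub (hsum x 1)).symm
    have hs : Summable fun m => |av f T (u * x) 1 m - av f T x 1 m| :=
      Summable.of_nonneg_of_le (fun _ => abs_nonneg _) (fun m => av_diff T u x m) (hsum u x)
    rw [e, ← Real.norm_eq_abs]
    refine (norm_tsum_le_tsum_norm (by simpa [Real.norm_eq_abs] using hs)).trans ?_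
    exact Summable.tsum_le_tsum (fun m => by rw [Real.norm_eq_abs]; exact av_diff T u x m)
      (by simpa [Real.norm_eq_abs] using hs) (hsum u x)
  have hΦso : SlowOsc Φ := by
    refine slowOsc_of fun u ε hε => ?_
    obtain ⟨bd, hbd, hb⟩ := hbound u
    have ht : Tendsto (fun x => ∑' m, av f T u x m) cofinite (𝓝 (∑' _ : ℕ, (0 : ℝ))) := by
      refine tendsto_tsum_of_dominated_convergence hbd (fun m => av_tendsto hf T u m) ?_
      refine Eventually.of_forall fun x m => ?_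
      rw [Real.norm_eq_abs, abs_of_nonneg (av_nonneg T u x m)]
      exact hb m x
    rw [tsum_zero] at ht
    have h2 := (ht.eventually (gt_mem_nhds hε))
    rw [eventually_cofinite] at h2
    refine h2.subset fun x hx => ?_
    rw [mem_setOf_eq, not_lt]
    exact le_trans hx (hΦd u x)
  obtain ⟨C, hC⟩ := hG.bdd hΦso
  obtain ⟨m, hm⟩ := exists_nat_gt (C / (1 / 2 : ℝ) ^ k)
  rw [div_lt_iff₀ (by positivity)] at hm
  have h3 : (m : ℝ) * (1 / 2) ^ k ≤ Φ (v m) := by
    refine le_trans ?_ ((hsum (v m) 1).le_tsum m fun j _ => av_nonneg T _ _ j)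
    unfold av
    have hc : (0 : ℝ) < (T m).card := by exact_mod_cast hT0 m
    rw [div_mul_eq_mul_div, le_div_iff₀ hc]
    have h4 : (T m).card • ((1 / 2 : ℝ) ^ k) ≤
        ∑ y ∈ T m, |f (v m * (1 * y)) - f (1 * y)| := by
      refine Finset.card_nsmul_le_sum _ _ _ fun y hy => ?_
      rw [one_mul]
      have hy' : y ∈ {y | (1 / 2 : ℝ) ^ k ≤ |f (v m * y) - f y|} :=
        (rate_fin hf (v m) k).mem_toFinset.1 hy
      exact hy'
    rw [nsmul_eq_mul] at h4
    calc (m : ℝ) * (1 / 2) ^ k * (T m).card = m * ((T m).card * (1 / 2 : ℝ) ^ k) := by ring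
      _ ≤ _ := mul_le_mul_of_nonneg_left h4 (Nat.cast_nonneg _)
  have h5 := (le_abs_self _).trans (hC (v m))
  linarith

end Pool.Agent.X214.SO
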